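import Mathlib
import Pool.Agent.K6.H62.PR.Stm
import Pool.Agent.K6.H62.PR.LND
import Pool.Agent.K6.H62.PR.ABL
import Pool.Agent.K6.H62.PR.QFA
import Pool.Agent.K6.H62.PR.QFB
import Pool.Agent.K6.H62.PR.QFF
import Pool.Agent.K6.H62.PR.LDL
import Pool.Agent.K6.H62.PR.TRV
import Pool.Agent.K6.H62.PR.QLC
import Pool.Agent.K6.H62.PR.IDT
import Pool.Agent.K6.H62.PR.CNT
import Pool.Agent.K6.H62.PR.ZER
import Pool.Agent.K6.H62.PR.SQR
import Pool.Agent.K6.H62.PR.CNJ
import Pool.Agent.K6.H62.PR.FEQ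
import Pool.Agent.K6.H62.PR.EUL
import Pool.Agent.K6.H62.PR.MST
import Pool.Agent.K6.H62.PR.ENT
import Pool.Agent.K6.H62.PR.LIO
import Pool.Agent.K6.H62.PR.GRQ
import Pool.Agent.K6.H62.PR2.Stm2
import Pool.Agent.K6.H62.PR2.STA2
import Pool.Agent.K6.H62.PR2.STB2
import Pool.Agent.K6.H62.PR2.STP2
import Pool.Agent.K6.H62.PR2.ONE2
import Pool.Agent.K6.H62.PR2.INV2
import Pool.Agent.K6.H62.PR2.FIN2

/-!
# Prime number races: unconditional leads over the class `1` and over the inverse class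

For every modulus `b` and every class `a` coprime to `b`, the primes `≡ a (mod b)` lead the primes
`≡ a₁ (mod b)` infinitely often when `a₁ ≡ 1`, and when `a a₁ ≡ 1` (and `a₁ ≢ a`); for every `K` and
every `δ < 1/2` the lead exceeds `K n^δ` infinitely often.

Proof (no hypothesis on zeros of L-functions).  Suppose `π(n;a₁,b) + K n^δ ≥ π(n;a,b)` for all
large `n` and let `F(s) = ∑ ± p^{-s}`.  Then `F'` is a combination of the logarithmic derivatives of
the `L(s,χ)` with weights `χ(a₁)⁻¹ - χ(a)⁻¹` (plus the squares of primes).  At real points the residues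
of this combination are `≥ 0` when `a₁ = 1` and `0` when `a₁ = a⁻¹`; by Landau's theorem the Dirichlet
series attached to the difference converges to the left of `1/2`, and all residues on `Re s ≥ 1/2`
vanish.  For `a₁ = 1` this says that `L(s,χ)` has no zero in `Re s ≥ 1/2` for `χ(a) ≠ 1`, which is
false.  For `a₁ = a⁻¹` the combination is (up to Euler factors) an entire function, symmetric under
`s ↦ 1 - s`, of polynomial growth and tending to `0` at `+∞`; so it vanishes, which is false.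
-/

set_option autoImplicit false

namespace Pool.Agent.Results.MP_c04f8f_nt.UnconditionalLeads

open Pool.Agent.K6.H62.PR

theorem result (b a a₁ : ℕ) (hb : 1 ≤ b) (hab : Nat.Coprime a b) (hne : ¬ (a₁ ≡ a [MOD b]))
    (h : a₁ ≡ 1 [MOD b] ∨ a * a₁ ≡ 1 [MOD b]) (K δ : ℝ) (hδ : δ < 1 / 2) (N : ℕ) :
    ∃ n : ℕ, N ≤ n ∧
      (((Finset.range (n + 1)).filter (fun p => p.Prime ∧ p ≡ a₁ [MOD b])).card : ℝ) +
        K * (n : ℝ) ^ δ <
      (((Finset.range (n + 1)).filter (fun p => p.Prime ∧ p ≡ a [MOD b])).card : ℝ) := by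
  have hQLC : S_QLC := t_QLC t_LDL t_TRV t_QFB
  have hQFF : S_QFF := t_QFF t_QFA t_QFB
  have hSTP : S_STP2 := t_STP2 t_ABL hQFF t_IDT hQLC t_STA2 (t_STB2 t_LND)
  have hCNT : S_CNT := t_CNT t_ABL hQFF t_IDT hQLC t_TRV t_QFB
  have hONE : S_ONE2 := t_ONE2 hSTP hCNT t_ZER t_SQR
  have hMST : S_MST := t_MST t_FEQ t_EUL
  have hINV : S_INV2 := t_INV2 hSTP hCNT t_CNJ t_SQR t_LDL hMST t_ENT t_LIO (t_GRQ t_QFB)
  exact t_FIN2 hONE hINV a b a₁ hb hab hne h K δ hδ N

end Pool.Agent.Results.MP_c04f8f_nt.UnconditionalLeads
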